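import Mathlib
import Pool.Agent.W993.MC.Stm

set_option autoImplicit false

open Filter Topology

namespace Pool.Agent.W255.MC

open Pool.Agent.W993.MC

/-- coefficients -/
noncomputable def s (k l : ℕ) : ℂ := S (List.replicate k (1, 1)) l

theorem s_zero (l : ℕ) : s 0 l = 1 := by simp [s, S]

theorem s_succ (k M : ℕ) : s (k + 1) M = ∑ l ∈ Finset.range M, 1 / ((l : ℂ) + 1) * s k l := by
  unfold s
  rw [List.replicate_succ]
  simp only [S, one_pow, pow_one]

theorem s_bd (k : ℕ) : ∀ l : ℕ, ‖s k l‖ ≤ (l : ℝ) ^ k := by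
  induction k with
  | zero => intro l; simp [s_zero]
  | succ k ih =>
    intro M
    rw [s_succ]
    have h1 : ∀ l ∈ Finset.range M, ‖1 / ((l : ℂ) + 1) * s k l‖ ≤ (M : ℝ) ^ k := by
      intro l hl
      have hlM : (l : ℝ) ≤ M := by
        have := Finset.mem_range.mp hl
        exact_mod_cast this.le
      rw [norm_mul, norm_div, norm_one]
      have h2 : (1 : ℝ) ≤ ‖(l : ℂ) + 1‖ := by
        have : ((l : ℂ) + 1) = ((l + 1 : ℕ) : ℂ) := by push_cast; ring
        rw [this, Complex.norm_natCast]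
        push_cast
        have : (0 : ℝ) ≤ l := Nat.cast_nonneg l
        linarith
      have h3 : 1 / ‖(l : ℂ) + 1‖ ≤ 1 := by
        rw [div_le_one (by linarith)]
        exact h2
      calc 1 / ‖(l : ℂ) + 1‖ * ‖s k l‖ ≤ 1 * (l : ℝ) ^ k := by
            apply mul_le_mul h3 (ih l) (norm_nonneg _) zero_le_one
        _ = (l : ℝ) ^ k := one_mul _
        _ ≤ (M : ℝ) ^ k := pow_le_pow_left₀ (Nat.cast_nonneg l) hlM k
    calc ‖∑ l ∈ Finset.range M, 1 / ((l : ℂ) + 1) * s k l‖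
        ≤ ∑ l ∈ Finset.range M, ‖1 / ((l : ℂ) + 1) * s k l‖ := norm_sum_le _ _
      _ ≤ ∑ l ∈ Finset.range M, (M : ℝ) ^ k := Finset.sum_le_sum h1
      _ = (M : ℝ) ^ (k + 1) := by
        rw [Finset.sum_const, Finset.card_range, nsmul_eq_mul, pow_succ]
        ring

theorem summ_aux (k : ℕ) {r : ℝ} (h0 : 0 ≤ r) (hr : r < 1) :
    Summable (fun n : ℕ => r ^ n * (n : ℝ) ^ k) := by
  have h := summable_pow_mul_geometric_of_norm_lt_one (R := ℝ) k (r := r)
    (by rw [Real.norm_of_nonneg h0]; exact hr)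
  refine h.congr ?_
  intro n
  ring

/-- termwise functions -/
noncomputable def g (k n : ℕ) (x : ℂ) : ℂ := x ^ (n + 1) / ((n : ℂ) + 1) * s k n

noncomputable def F (k : ℕ) (x : ℂ) : ℂ := ∑' n, g k n x

theorem g_deriv (k n : ℕ) (y : ℂ) : HasDerivAt (g k n) (y ^ n * s k n) y := by
  have hn : ((n : ℂ) + 1) ≠ 0 := Nat.cast_add_one_ne_zero n
  have h := ((hasDerivAt_pow (n + 1) y).div_const ((n : ℂ) + 1)).mul_const (s k n)
  have e : ((n + 1 : ℕ) : ℂ) * y ^ (n + 1 - 1) / ((n : ℂ) + 1) * s k n = y ^ n * s k n := by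
    rw [Nat.add_sub_cancel]
    push_cast
    field_simp
  exact h.congr_deriv e

theorem norm_deriv_le (k n : ℕ) {r : ℝ} {y : ℂ} (hy : ‖y‖ ≤ r) :
    ‖y ^ n * s k n‖ ≤ r ^ n * (n : ℝ) ^ k := by
  rw [norm_mul, norm_pow]
  exact mul_le_mul (pow_le_pow_left₀ (norm_nonneg _) hy n) (s_bd k n) (norm_nonneg _)
    (pow_nonneg ((norm_nonneg _).trans hy) n)

theorem g_norm_le (k n : ℕ) (x : ℂ) (hx : ‖x‖ ≤ 1) : ‖g k n x‖ ≤ ‖x‖ ^ n * (n : ℝ) ^ k := by
  unfold g
  rw [norm_mul, norm_div, norm_pow]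
  have h2 : (1 : ℝ) ≤ ‖(n : ℂ) + 1‖ := by
    have : ((n : ℂ) + 1) = ((n + 1 : ℕ) : ℂ) := by push_cast; ring
    rw [this, Complex.norm_natCast]
    push_cast
    have : (0 : ℝ) ≤ n := Nat.cast_nonneg n
    linarith
  have h3 : ‖x‖ ^ (n + 1) / ‖(n : ℂ) + 1‖ ≤ ‖x‖ ^ n := by
    rw [div_le_iff₀ (by linarith)]
    calc ‖x‖ ^ (n + 1) = ‖x‖ ^ n * ‖x‖ := pow_succ _ _
      _ ≤ ‖x‖ ^ n * ‖(n : ℂ) + 1‖ :=
        mul_le_mul_of_nonneg_left (hx.trans h2) (pow_nonneg (norm_nonneg _) n)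
  exact mul_le_mul h3 (s_bd k n) (norm_nonneg _) (pow_nonneg (norm_nonneg _) n)

theorem g_summable (k : ℕ) {x : ℂ} (hx : ‖x‖ < 1) : Summable (fun n => g k n x) :=
  Summable.of_norm_bounded (summ_aux k (norm_nonneg x) hx) (fun n => g_norm_le k n x hx.le)

theorem d_summable (k : ℕ) {x : ℂ} (hx : ‖x‖ < 1) : Summable (fun n : ℕ => x ^ n * s k n) :=
  Summable.of_norm_bounded (summ_aux k (norm_nonneg x) hx) (fun n => norm_deriv_le k n le_rfl)

theorem F_deriv (k : ℕ) {y : ℂ} (hy : ‖y‖ < 1) :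
    HasDerivAt (F k) (∑' n : ℕ, y ^ n * s k n) y := by
  obtain ⟨r, hr1, hr2⟩ := exists_between hy
  have h0 : 0 ≤ r := (norm_nonneg y).trans hr1.le
  refine hasDerivAt_tsum_of_isPreconnected (g := fun n => g k n)
    (g' := fun n y => y ^ n * s k n) (t := Metric.ball (0 : ℂ) r) (y₀ := 0)
    (summ_aux k h0 hr2) Metric.isOpen_ball
    ((convex_ball (0 : ℂ) r).isPreconnected) (fun n z _ => g_deriv k n z) ?_ ?_ ?_ ?_
  · intro n z hz
    exact norm_deriv_le k n (by simpa using (Metric.mem_ball.mp hz).le)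
  · simpa using (lt_of_le_of_lt (norm_nonneg y) hr1)
  · exact g_summable k (by simp)
  · simpa using hr1

/-- the telescoping identity -/
theorem tele (k : ℕ) {y : ℂ} (hy : ‖y‖ < 1) :
    (1 - y) * (∑' n : ℕ, y ^ n * s (k + 1) n) = F k y := by
  have hs := d_summable (k + 1) hy
  have h1 : ∑' n : ℕ, y ^ n * s (k + 1) n = ∑' n : ℕ, y ^ (n + 1) * s (k + 1) (n + 1) := by
    rw [hs.tsum_eq_zero_add]
    have : s (k + 1) 0 = 0 := by rw [s_succ]; simp
    rw [this]
    simp
  have hs' : Summable (fun n : ℕ => y ^ (n + 1) * s (k + 1) (n + 1)) :=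
    (summable_nat_add_iff (f := fun n : ℕ => y ^ n * s (k + 1) n) 1).mpr hs
  rw [sub_mul, one_mul]
  nth_rewrite 1 [h1]
  rw [← tsum_mul_left, ← (hs'.tsum_sub (hs.mul_left y))]
  unfold F
  apply tsum_congr
  intro n
  unfold g
  have h2 : s (k + 1) (n + 1) = s (k + 1) n + 1 / ((n : ℂ) + 1) * s k n := by
    rw [s_succ, s_succ, Finset.sum_range_succ]
  rw [h2]
  ring

theorem log_deriv {y : ℂ} (hy : ‖y‖ < 1) :
    HasDerivAt (fun z => -Complex.log (1 - z)) (1 / (1 - y)) y := by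
  have hm : (1 - y) ∈ Complex.slitPlane := by
    have := Complex.mem_slitPlane_of_norm_lt_one (z := -y) (by rwa [norm_neg])
    simpa [sub_eq_add_neg] using this
  have h1 : HasDerivAt (fun z : ℂ => 1 - z) (-1) y := by
    simpa using (hasDerivAt_id y).const_sub 1
  have h2 := (h1.clog hm).neg
  have e : -(-1 / (1 - y)) = 1 / (1 - y) := by rw [neg_div, neg_neg]
  exact h2.congr_deriv e

theorem one_sub_ne {y : ℂ} (hy : ‖y‖ < 1) : (1 - y) ≠ 0 := by
  intro h
  have : y = 1 := by linear_combination -h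
  rw [this] at hy
  simp at hy

theorem F_eq (k : ℕ) : ∀ y : ℂ, ‖y‖ < 1 →
    F k y = (-Complex.log (1 - y)) ^ (k + 1) / ((k + 1).factorial : ℂ) := by
  induction k with
  | zero =>
    intro y hy
    have h := Complex.hasSum_taylorSeries_neg_log hy
    unfold F g
    have h2 := (hasSum_nat_add_iff' (f := fun n : ℕ => y ^ n / (n : ℂ)) 1).mpr h
    simp only [Finset.range_one, Finset.sum_singleton, pow_zero, Nat.cast_zero, div_zero,
      sub_zero] at h2
    simp only [s_zero, mul_one, zero_add, pow_one, Nat.factorial_one, Nat.cast_one, div_one]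
    rw [← h2.tsum_eq]
    apply tsum_congr
    intro n
    push_cast
    rfl
  | succ k ih =>
    intro y hy
    have hd1 : ∀ z ∈ Metric.ball (0 : ℂ) 1, HasDerivAt (F (k + 1)) (F k z / (1 - z)) z := by
      intro z hz
      have hz' : ‖z‖ < 1 := by simpa using hz
      have h := F_deriv (k + 1) hz'
      have ht := tele k hz'
      have hne := one_sub_ne hz'
      convert h using 1
      rw [← ht]
      field_simp
    have hd2 : ∀ z ∈ Metric.ball (0 : ℂ) 1,
        HasDerivAt (fun z => (-Complex.log (1 - z)) ^ (k + 1 + 1) / ((k + 1 + 1).factorial : ℂ))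
          (F k z / (1 - z)) z := by
      intro z hz
      have hz' : ‖z‖ < 1 := by simpa using hz
      have h := ((log_deriv hz').pow (k + 1 + 1)).div_const ((k + 1 + 1).factorial : ℂ)
      rw [ih z hz']
      have hne := one_sub_ne hz'
      have h1 : (((k + 1).factorial : ℕ) : ℂ) ≠ 0 :=
        Nat.cast_ne_zero.mpr (Nat.factorial_ne_zero (k + 1))
      have h2 : (((k + 1 + 1 : ℕ)) : ℂ) ≠ 0 := Nat.cast_ne_zero.mpr (Nat.succ_ne_zero (k + 1))
      have e : ((k + 1 + 1 : ℕ) : ℂ) * (-Complex.log (1 - z)) ^ (k + 1 + 1 - 1) * (1 / (1 - z)) /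
          ((k + 1 + 1).factorial : ℂ) =
          (-Complex.log (1 - z)) ^ (k + 1) / ((k + 1).factorial : ℂ) / (1 - z) := by
        rw [Nat.add_sub_cancel, Nat.factorial_succ (k + 1), Nat.cast_mul]
        generalize (-Complex.log (1 - z)) ^ (k + 1) = A
        generalize (((k + 1).factorial : ℕ) : ℂ) = B at h1 ⊢
        generalize (((k + 1 + 1 : ℕ)) : ℂ) = C at h2 ⊢
        field_simp
      exact h.congr_deriv e
    have hball : (y : ℂ) ∈ Metric.ball (0 : ℂ) 1 := by simpa using hy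
    have key := IsOpen.eqOn_of_deriv_eq (𝕜 := ℂ) (f := F (k + 1))
      (g := fun z => (-Complex.log (1 - z)) ^ (k + 1 + 1) / ((k + 1 + 1).factorial : ℂ))
      (s := Metric.ball (0 : ℂ) 1) (x := 0) Metric.isOpen_ball
      ((convex_ball (0 : ℂ) 1).isPreconnected)
      (fun z hz => (hd1 z hz).differentiableAt.differentiableWithinAt)
      (fun z hz => (hd2 z hz).differentiableAt.differentiableWithinAt)
      (fun z hz => by rw [(hd1 z hz).deriv, (hd2 z hz).deriv])
      (by simp) (by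
        have : F (k + 1) 0 = 0 := by
          unfold F g
          simp
        rw [this]
        simp)
    exact key hball

theorem gen : S_GEN := by
  intro k x hx
  have h := (g_summable k hx).hasSum
  have h2 := F_eq k x hx
  unfold F at h2
  rw [h2] at h
  exact h

end Pool.Agent.W255.MC
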